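import Mathlib
import Pool.Agent.TH783.CE.Flat

/-!
Sets any two points of which are joined by a rational family.
-/

set_option autoImplicit false

namespace Pool.Agent.X32.NF

open MvPolynomial
open Pool.Agent.TH783.CE (Flat)

variable {K : Type} [Field K]

/-- numerator of the composition with `g / N` -/
noncomputable def hom {ι κ : Type} (D : ℕ) (g : ι → MvPolynomial κ K) (N : MvPolynomial κ K)
    (P : MvPolynomial ι K) : MvPolynomial κ K :=
  ∑ m ∈ P.support, C (coeff m P) * (m.prod fun i e => g i ^ e) * N ^ (D - m.degree)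

theorem aeval_hom {ι κ : Type} {F : Type} [Field F] [Algebra K F] (D : ℕ) (g : ι → MvPolynomial κ K)
    (N : MvPolynomial κ K) (P : MvPolynomial ι K) (hD : P.totalDegree ≤ D) (v : κ → F) (y : ι → F)
    (h : ∀ i, aeval v (g i) = aeval v N * y i) :
    aeval v (hom D g N P) = aeval v N ^ D * aeval y P := by
  classical
  unfold hom
  rw [map_sum, aeval_def (f := y), eval₂_eq, Finset.mul_sum]
  apply Finset.sum_congr rfl
  intro m hm
  have hdeg : m.degree ≤ D := by
    have h1 := le_totalDegree hm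
    exact h1.trans hD
  rw [map_mul, map_mul, map_pow, aeval_C, Finsupp.prod, map_prod]
  have h2 : ∏ i ∈ m.support, aeval v (g i ^ m i) = aeval v N ^ m.degree * ∏ i ∈ m.support, y i ^ m i := by
    have : m.degree = ∑ i ∈ m.support, m i := rfl
    rw [this, ← Finset.prod_pow_eq_pow_sum, ← Finset.prod_mul_distrib]
    apply Finset.prod_congr rfl
    intro i _
    rw [map_pow, h i, mul_pow]
  rw [h2]
  have h3 : aeval v N ^ D = aeval v N ^ m.degree * aeval v N ^ (D - m.degree) := by
    rw [← pow_add]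
    congr 1
    omega
  rw [h3]
  ring

/-- any two points are joined by a rational family, the second one being a point over the algebraic closure -/
def Linked {ι : Type} (S : Set (ι → K)) : Prop :=
  ∀ y ∈ S, ∀ y' ∈ S, ∃ (κ : Type) (_ : Finite κ) (g : ι → MvPolynomial κ K) (N : MvPolynomial κ K)
    (w : κ → K) (w' : κ → AlgebraicClosure K),
    aeval w N ≠ (0 : K) ∧ (∀ i, aeval w (g i) = aeval w N * y i) ∧
    aeval w' N ≠ (0 : AlgebraicClosure K) ∧
    (∀ i, aeval w' (g i) = aeval w' N * algebraMap K (AlgebraicClosure K) (y' i)) ∧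
    ∀ v : κ → K, aeval v N ≠ (0 : K) → (fun i => aeval v (g i) / aeval v N) ∈ S

/-- polynomial on a line -/
theorem line_poly {κ : Type} (P : MvPolynomial κ K) (w v : κ → K) :
    ∃ p : Polynomial K, ∀ s : K, p.eval s = aeval (w + s • v) P := by
  obtain ⟨A, hA⟩ : ∃ A : MvPolynomial κ K →ₐ[K] Polynomial K,
      A = aeval (fun i => Polynomial.C (w i) + Polynomial.X * Polynomial.C (v i)) := ⟨_, rfl⟩
  refine ⟨A P, fun s => ?_⟩
  have h2 : (Polynomial.aeval (R := K) s).comp A = aeval (R := K) (w + s • v) := by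
    apply MvPolynomial.algHom_ext
    intro i
    rw [AlgHom.comp_apply, hA, aeval_X, aeval_X]
    simp only [map_add, map_mul, Polynomial.aeval_C, Polynomial.aeval_X, Pi.add_apply, Pi.smul_apply, smul_eq_mul,
      Algebra.algebraMap_self, RingHom.id_apply]
  rw [← h2, AlgHom.comp_apply, Polynomial.coe_aeval_eq_eval]

/-- **A rational function with values in a flat set is constant on a linked set.** -/
theorem linked_const [CharZero K] {O : Set K} (hO : Flat O) {ι : Type} {S : Set (ι → K)} (hS : Linked S)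
    (P Q : MvPolynomial ι K) (h : ∀ y ∈ S, aeval y Q ≠ (0 : K) → aeval y P / aeval y Q ∈ O) :
    ∀ y ∈ S, ∀ y' ∈ S, aeval y Q ≠ (0 : K) →
      aeval y' P * aeval y Q = (aeval y P * aeval y' Q : K) := by
  classical
  intro y hy y' hy' hQ
  obtain ⟨κ, _, g, N, w, w', hN, hg, hN', hg', hval⟩ := hS y hy y' hy'
  obtain ⟨D, hDP, hDQ⟩ : ∃ D, P.totalDegree ≤ D ∧ Q.totalDegree ≤ D := ⟨_, le_max_left _ _, le_max_right _ _⟩
  obtain ⟨c, hc⟩ : ∃ c : K, c = aeval y P / aeval y Q := ⟨_, rfl⟩
  -- the identity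
  have key : ∀ v : κ → K, aeval v (N * (hom D g N P - C c * hom D g N Q)) = (0 : K) := by
    intro v
    obtain ⟨pN, hpN⟩ := line_poly N w (v - w)
    obtain ⟨pP, hpP⟩ := line_poly (hom D g N P) w (v - w)
    obtain ⟨pQ, hpQ⟩ := line_poly (hom D g N Q) w (v - w)
    have hval' : ∀ s : K, (pQ * pN).eval s ≠ 0 → (pP * pN).eval s / (pQ * pN).eval s ∈ O := by
      intro s hs
      rw [Polynomial.eval_mul] at hs
      have hs1 : pN.eval s ≠ 0 := right_ne_zero_of_mul hs
      have hs2 : pQ.eval s ≠ 0 := left_ne_zero_of_mul hs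
      rw [hpN] at hs1
      rw [hpQ] at hs2
      obtain ⟨z, hz⟩ : ∃ z : ι → K, z = fun i => aeval (w + s • (v - w)) (g i) / aeval (w + s • (v - w)) N := ⟨_, rfl⟩
      have hzS : z ∈ S := by rw [hz]; exact hval _ hs1
      have hgz : ∀ i, aeval (w + s • (v - w)) (g i) = aeval (w + s • (v - w)) N * z i := by
        intro i
        rw [hz]
        field_simp
      have e1 := aeval_hom D g N P hDP _ z hgz
      have e2 := aeval_hom D g N Q hDQ _ z hgz
      rw [Polynomial.eval_mul, Polynomial.eval_mul, hpP, hpQ, hpN, mul_div_mul_right _ _ hs1, e1, e2]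
      rw [e2] at hs2
      have hQz : aeval z Q ≠ (0 : K) := right_ne_zero_of_mul hs2
      rw [mul_div_mul_left _ _ (left_ne_zero_of_mul hs2)]
      exact h z hzS hQz
    have hne : pQ * pN ≠ 0 := by
      intro h0
      have h1 : (pQ * pN).eval 0 = 0 := by rw [h0, Polynomial.eval_zero]
      rw [Polynomial.eval_mul, hpQ, hpN, zero_smul, add_zero, aeval_hom D g N Q hDQ w y hg] at h1
      exact (mul_ne_zero (mul_ne_zero (pow_ne_zero _ hN) hQ) hN) h1
    obtain ⟨c', hc'⟩ := hO (pQ * pN) (pP * pN) hne hval'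
    have h0 : (pP * pN).eval 0 = c' * (pQ * pN).eval 0 := by
      rw [hc', Polynomial.eval_mul, Polynomial.eval_C]
    rw [Polynomial.eval_mul, Polynomial.eval_mul, hpP, hpQ, hpN, zero_smul, add_zero,
      aeval_hom D g N Q hDQ w y hg, aeval_hom D g N P hDP w y hg] at h0
    have hcc : c' = c := by
      rw [hc, eq_div_iff hQ]
      have hND : (aeval w N : K) ^ D * aeval w N ≠ 0 := mul_ne_zero (pow_ne_zero _ hN) hN
      apply mul_left_cancel₀ hND
      linear_combination -h0
    have h1 : (pP * pN).eval 1 = c * (pQ * pN).eval 1 := by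
      rw [hc', Polynomial.eval_mul, Polynomial.eval_C, hcc]
    rw [Polynomial.eval_mul, Polynomial.eval_mul, hpP, hpQ, hpN, one_smul, add_sub_cancel] at h1
    rw [map_mul, map_sub, map_mul, aeval_C]
    simp only [Algebra.algebraMap_self, RingHom.id_apply]
    linear_combination h1
  have key2 : N * (hom D g N P - C c * hom D g N Q) = 0 := by
    have : Infinite K := inferInstance
    apply MvPolynomial.funext
    intro v
    have := key v
    rw [aeval_eq_eval] at this
    rw [map_zero]
    exact this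
  have h3 : aeval w' (N * (hom D g N P - C c * hom D g N Q)) = (0 : AlgebraicClosure K) := by
    rw [key2, map_zero]
  rw [map_mul, map_sub, map_mul, aeval_C, aeval_hom D g N P hDP w' _ hg', aeval_hom D g N Q hDQ w' _ hg'] at h3
  have h4 : aeval (fun i => algebraMap K (AlgebraicClosure K) (y' i)) P = algebraMap K (AlgebraicClosure K) (aeval y' P) :=
    aeval_algebraMap_apply (AlgebraicClosure K) y' P
  have h5 : aeval (fun i => algebraMap K (AlgebraicClosure K) (y' i)) Q = algebraMap K (AlgebraicClosure K) (aeval y' Q) :=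
    aeval_algebraMap_apply (AlgebraicClosure K) y' Q
  rw [h4, h5] at h3
  have h6 := (mul_eq_zero.1 h3).resolve_left hN'
  have h7 : (aeval w' N : AlgebraicClosure K) ^ D * (algebraMap K (AlgebraicClosure K) (aeval y' P - c * aeval y' Q)) = 0 := by
    rw [map_sub, map_mul]
    linear_combination h6
  have h8 := (mul_eq_zero.1 h7).resolve_left (pow_ne_zero _ hN')
  rw [map_eq_zero] at h8
  rw [hc] at h8
  field_simp at h8
  linear_combination h8

/-- affine spaces -/
theorem linked_univ {ι : Type} [Finite ι] : Linked (Set.univ : Set (ι → K)) := by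
  intro y _ y' _
  refine ⟨ι, inferInstance, fun i => X i, 1, y, fun i => algebraMap K (AlgebraicClosure K) (y' i), ?_, ?_, ?_, ?_, ?_⟩
  · simp
  · intro i; simp
  · simp
  · intro i; simp
  · intro v _
    exact Set.mem_univ _

/-- products -/
theorem linked_pi {r : ℕ} {ι : Fin r → Type} (S : ∀ j, Set (ι j → K)) (hS : ∀ j, Linked (S j)) :
    Linked {y : ((j : Fin r) × ι j) → K | ∀ j, (fun i => y ⟨j, i⟩) ∈ S j} := by
  classical
  intro y hy y' hy'
  choose κ hκ g N w w' hN hg hN' hg' hval using fun j => hS j _ (hy j) _ (hy' j)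
  have hfin : Finite ((j : Fin r) × κ j) := inferInstance
  have e1 : ∀ {F : Type} [Field F] [Algebra K F] (v : ((j : Fin r) × κ j) → F) (j : Fin r) (P : MvPolynomial (κ j) K),
      aeval v (rename (fun i => (⟨j, i⟩ : (j : Fin r) × κ j)) P) = aeval (fun i => v ⟨j, i⟩) P := by
    intro F _ _ v j P
    rw [aeval_rename]
    rfl
  refine ⟨(j : Fin r) × κ j, hfin, fun p => rename (fun i => (⟨p.1, i⟩ : (j : Fin r) × κ j)) (g p.1 p.2) *
      ∏ j ∈ Finset.univ.erase p.1, rename (fun i => (⟨j, i⟩ : (j : Fin r) × κ j)) (N j),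
    ∏ j, rename (fun i => (⟨j, i⟩ : (j : Fin r) × κ j)) (N j), fun p => w p.1 p.2, fun p => w' p.1 p.2, ?_, ?_, ?_, ?_, ?_⟩
  · rw [map_prod]
    apply Finset.prod_ne_zero_iff.2
    intro j _
    rw [e1]
    exact hN j
  · rintro ⟨j, i⟩
    rw [map_mul, map_prod, map_prod, ← Finset.mul_prod_erase Finset.univ _ (Finset.mem_univ j), e1, e1]
    have := hg j i
    simp only at this ⊢
    rw [this]
    ring
  · rw [map_prod]
    apply Finset.prod_ne_zero_iff.2
    intro j _
    rw [e1]
    exact hN' j
  · rintro ⟨j, i⟩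
    rw [map_mul, map_prod, map_prod, ← Finset.mul_prod_erase Finset.univ _ (Finset.mem_univ j), e1, e1]
    have := hg' j i
    simp only at this ⊢
    rw [this]
    ring
  · intro v hv j
    rw [map_prod] at hv
    have hvj : ∀ j', aeval (fun i => v ⟨j', i⟩) (N j') ≠ (0 : K) := by
      intro j'
      have := (Finset.prod_ne_zero_iff.1 hv) j' (Finset.mem_univ _)
      rwa [e1] at this
    have h1 := hval j (fun i => v ⟨j, i⟩) (hvj j)
    convert h1 using 1
    funext i
    simp only [map_mul, map_prod, e1]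
    rw [← Finset.mul_prod_erase Finset.univ (fun j' => (aeval (fun i => v ⟨j', i⟩) (N j') : K)) (Finset.mem_univ j)]
    have h2 : ∏ j' ∈ Finset.univ.erase j, (aeval (fun i => v ⟨j', i⟩) (N j') : K) ≠ 0 :=
      Finset.prod_ne_zero_iff.2 fun j' _ => hvj j'
    rw [mul_div_mul_right _ _ h2]

end Pool.Agent.X32.NF
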