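import Mathlib
import Pool.Agent.X32.NF.Linked

/-!
Quadrics are linked sets.
-/

set_option autoImplicit false

namespace Pool.Agent.X32.NF

open MvPolynomial

variable {K : Type} [Field K] {ι : Type} [Fintype ι]

/-- the bilinear form of a matrix over an algebra -/
noncomputable def bil {R : Type} [CommRing R] [Algebra K R] (A : Matrix ι ι K) (x y : ι → R) : R :=
  ∑ i, ∑ j, algebraMap K R (A i j) * x i * y j

theorem bil_map {R R' : Type} [CommRing R] [Algebra K R] [CommRing R'] [Algebra K R'] (h : R →ₐ[K] R')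
    (A : Matrix ι ι K) (x y : ι → R) : h (bil A x y) = bil A (fun i => h (x i)) (fun i => h (y i)) := by
  simp only [bil, map_sum, map_mul, AlgHom.commutes]

theorem bil_add_left (A : Matrix ι ι K) (x x' y : ι → K) : bil A (x + x') y = bil A x y + bil A x' y := by
  simp only [bil, Pi.add_apply, mul_add, add_mul, Finset.sum_add_distrib]

theorem bil_add_right (A : Matrix ι ι K) (x y y' : ι → K) : bil A x (y + y') = bil A x y + bil A x y' := by
  simp only [bil, Pi.add_apply, mul_add, Finset.sum_add_distrib]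

theorem bil_smul_left (A : Matrix ι ι K) (a : K) (x y : ι → K) : bil A (a • x) y = a * bil A x y := by
  simp only [bil, Pi.smul_apply, smul_eq_mul, Finset.mul_sum]
  exact Finset.sum_congr rfl fun i _ => Finset.sum_congr rfl fun j _ => by ring

theorem bil_smul_right (A : Matrix ι ι K) (a : K) (x y : ι → K) : bil A x (a • y) = a * bil A x y := by
  simp only [bil, Pi.smul_apply, smul_eq_mul, Finset.mul_sum]
  exact Finset.sum_congr rfl fun i _ => Finset.sum_congr rfl fun j _ => by ring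

theorem bil_comm (A : Matrix ι ι K) (hA : A.IsSymm) (x y : ι → K) : bil A x y = bil A y x := by
  unfold bil
  rw [Finset.sum_comm]
  apply Finset.sum_congr rfl
  intro i _
  apply Finset.sum_congr rfl
  intro j _
  rw [hA.apply]
  ring

theorem bil_eq (A : Matrix ι ι K) (x y : ι → K) : bil A x y = x ⬝ᵥ (A.mulVec y) := by
  simp only [bil, dotProduct, Matrix.mulVec, Algebra.algebraMap_self, RingHom.id_apply, Finset.mul_sum]
  exact Finset.sum_congr rfl fun i _ => Finset.sum_congr rfl fun j _ => by ring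

/-- nondegeneracy -/
theorem bil_nondeg [DecidableEq ι] (A : Matrix ι ι K) (hdet : A.det ≠ 0) (x : ι → K)
    (h : ∀ y, bil A x y = 0) : x = 0 := by
  have h1 : Matrix.vecMul x A = 0 := by
    funext i
    have := h (Pi.single i 1)
    rw [bil_eq, Matrix.dotProduct_mulVec, dotProduct_single_one] at this
    exact this
  exact Matrix.eq_zero_of_vecMul_eq_zero hdet h1

/-- there is an orthogonal non-isotropic vector -/
theorem exists_orth [CharZero K] [DecidableEq ι] (A : Matrix ι ι K) (hA : A.IsSymm) (hdet : A.det ≠ 0)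
    (hcard : 2 ≤ Fintype.card ι) (y : ι → K) (hy : bil A y y ≠ 0) :
    ∃ t : ι → K, bil A y t = 0 ∧ bil A t t ≠ 0 := by
  by_contra hcon
  push Not at hcon
  obtain ⟨c, hc⟩ : ∃ c, c = bil A y y := ⟨_, rfl⟩
  rw [← hc] at hy
  -- projection
  have hproj : ∀ x : ι → K, bil A y (x + (-(bil A x y / c)) • y) = 0 := by
    intro x
    rw [bil_add_right, bil_smul_right, ← hc, bil_comm A hA y x]
    field_simp
    ring
  have hiso : ∀ t t' : ι → K, bil A y t = 0 → bil A y t' = 0 → bil A t t' = 0 := by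
    intro t t' ht ht'
    have h1 := hcon (t + t') (by rw [bil_add_right, ht, ht', add_zero])
    rw [bil_add_left, bil_add_right, bil_add_right, hcon t ht, hcon t' ht', bil_comm A hA t' t] at h1
    have h2 : (2 : K) * bil A t t' = 0 := by linear_combination h1
    exact (mul_eq_zero.1 h2).resolve_left two_ne_zero
  have hzero : ∀ t : ι → K, bil A y t = 0 → t = 0 := by
    intro t ht
    apply bil_nondeg A hdet
    intro x
    have h1 : x = (x + (-(bil A x y / c)) • y) + (bil A x y / c) • y := by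
      rw [add_assoc, ← add_smul, neg_add_cancel, zero_smul, add_zero]
    rw [h1, bil_add_right, bil_smul_right, bil_comm A hA t y, ht, mul_zero, add_zero]
    exact hiso t _ ht (hproj x)
  have hmul : ∀ x : ι → K, ∃ a : K, x = a • y := by
    intro x
    have h1 := hzero _ (hproj x)
    refine ⟨bil A x y / c, ?_⟩
    rw [neg_smul, add_neg_eq_zero] at h1
    exact h1
  obtain ⟨i, j, hij⟩ := Fintype.exists_pair_of_one_lt_card (α := ι) (by omega)
  obtain ⟨a, ha⟩ := hmul (Pi.single i 1)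
  obtain ⟨b, hb⟩ := hmul (Pi.single j 1)
  have ha1 := congrFun ha i
  have ha2 := congrFun ha j
  have hb1 := congrFun hb j
  rw [Pi.single_eq_same, Pi.smul_apply, smul_eq_mul] at ha1 hb1
  rw [Pi.single_eq_of_ne (Ne.symm hij), Pi.smul_apply, smul_eq_mul] at ha2
  have ha0 : a ≠ 0 := by
    intro h
    rw [h, zero_mul] at ha1
    exact one_ne_zero ha1
  have hyj : y j = 0 := (mul_eq_zero.1 ha2.symm).resolve_left ha0
  rw [hyj, mul_zero] at hb1
  exact one_ne_zero hb1

/-- **Quadrics are linked sets.** -/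
theorem linked_quadric [CharZero K] (A : Matrix ι ι K) [DecidableEq ι] (hA : A.IsSymm) (hdet : A.det ≠ 0)
    (hcard : 2 ≤ Fintype.card ι) (c : K) (hc : c ≠ 0) :
    Linked {y : ι → K | y ⬝ᵥ (A.mulVec y) = c} := by
  intro y hy y' hy'
  replace hy : bil A y y = c := by rw [bil_eq]; exact hy
  replace hy' : bil A y' y' = c := by rw [bil_eq]; exact hy'
  obtain ⟨t₁, ht₁⟩ : ∃ t₁ : ι → MvPolynomial (ι ⊕ ι) K, t₁ = fun i => X (Sum.inl i) := ⟨_, rfl⟩
  obtain ⟨t₂, ht₂⟩ : ∃ t₂ : ι → MvPolynomial (ι ⊕ ι) K, t₂ = fun i => X (Sum.inr i) := ⟨_, rfl⟩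
  obtain ⟨u, hu⟩ : ∃ u : ι → MvPolynomial (ι ⊕ ι) K,
      u = fun i => bil A t₂ t₂ * C (y i) - 2 * bil A (fun i => C (y i)) t₂ * t₂ i := ⟨_, rfl⟩
  obtain ⟨g, hg⟩ : ∃ g : ι → MvPolynomial (ι ⊕ ι) K,
      g = fun i => bil A t₁ t₁ * u i - 2 * bil A u t₁ * t₁ i := ⟨_, rfl⟩
  -- values
  have hval : ∀ s₁ s₂ : ι → K, aeval (Sum.elim s₁ s₂) (bil A t₁ t₁ * bil A t₂ t₂) = bil A s₁ s₁ * bil A s₂ s₂ ∧
      (fun i => aeval (Sum.elim s₁ s₂) (g i)) =
        bil A s₁ s₁ • (bil A s₂ s₂ • y + (-(2 * bil A y s₂)) • s₂) +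
          (-(2 * bil A (bil A s₂ s₂ • y + (-(2 * bil A y s₂)) • s₂) s₁)) • s₁ := by
    intro s₁ s₂
    have e1 : (fun i => aeval (Sum.elim s₁ s₂) (t₁ i)) = s₁ := by
      funext i
      rw [ht₁, aeval_X, Sum.elim_inl]
    have e2 : (fun i => aeval (Sum.elim s₁ s₂) (t₂ i)) = s₂ := by
      funext i
      rw [ht₂, aeval_X, Sum.elim_inr]
    have e1' : ∀ i, aeval (Sum.elim s₁ s₂) (t₁ i) = s₁ i := fun i => congrFun e1 i
    have e2' : ∀ i, aeval (Sum.elim s₁ s₂) (t₂ i) = s₂ i := fun i => congrFun e2 i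
    have e3 : (fun i => aeval (Sum.elim s₁ s₂) (C (y i) : MvPolynomial (ι ⊕ ι) K)) = y := by
      funext i
      rw [aeval_C, Algebra.algebraMap_self, RingHom.id_apply]
    have e3' : ∀ i, aeval (Sum.elim s₁ s₂) (C (y i) : MvPolynomial (ι ⊕ ι) K) = y i := fun i => congrFun e3 i
    have e4 : (fun i => aeval (Sum.elim s₁ s₂) (u i)) = bil A s₂ s₂ • y + (-(2 * bil A y s₂)) • s₂ := by
      funext i
      rw [hu]
      simp only [map_sub, map_mul, bil_map, e2, e2', e3, e3', map_ofNat, Pi.add_apply, Pi.smul_apply, smul_eq_mul]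
      ring
    obtain ⟨z, hz⟩ : ∃ z : ι → K, z = bil A s₂ s₂ • y + (-(2 * bil A y s₂)) • s₂ := ⟨_, rfl⟩
    rw [← hz] at e4 ⊢
    have e4' : ∀ i, aeval (Sum.elim s₁ s₂) (u i) = z i := fun i => congrFun e4 i
    constructor
    · rw [map_mul, bil_map, bil_map, e1, e2]
    · funext i
      have h5 : aeval (Sum.elim s₁ s₂) (g i) = bil A s₁ s₁ * z i - 2 * bil A z s₁ * s₁ i := by
        rw [hg]
        show aeval (Sum.elim s₁ s₂) (bil A t₁ t₁ * u i - 2 * bil A u t₁ * t₁ i) = _
        rw [map_sub, map_mul, map_mul, map_mul, bil_map, bil_map, e1, e4, e4', e1', map_ofNat]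
      rw [h5]
      show _ = bil A s₁ s₁ * z i + (-(2 * bil A z s₁)) * s₁ i
      ring
  -- the point `s₂`
  obtain ⟨s₂, hs₂, hs₂'⟩ : ∃ s₂ : ι → K, bil A s₂ s₂ ≠ 0 ∧
      bil A (y + (-(2 * bil A y s₂ / bil A s₂ s₂)) • s₂) y' ≠ c := by
    by_cases h : bil A y y' = -c
    · obtain ⟨t, ht, ht'⟩ := exists_orth A hA hdet hcard y (by rw [hy]; exact hc)
      refine ⟨t, ht', ?_⟩
      rw [ht, mul_zero, zero_div, neg_zero, zero_smul, add_zero, h]
      intro h1
      have h2 : (2 : K) * c = 0 := by linear_combination -h1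
      exact hc ((mul_eq_zero.1 h2).resolve_left two_ne_zero)
    · refine ⟨y, by rw [hy]; exact hc, ?_⟩
      rw [hy, mul_div_assoc, div_self hc, mul_one, bil_add_left, bil_smul_left]
      intro h1
      apply h
      linear_combination -h1
  obtain ⟨y'', hy''⟩ : ∃ y'' : ι → K, y'' = y + (-(2 * bil A y s₂ / bil A s₂ s₂)) • s₂ := ⟨_, rfl⟩
  rw [← hy''] at hs₂'
  have hq'' : bil A y'' y'' = c := by
    rw [hy'']
    simp only [bil_add_left, bil_add_right, bil_smul_left, bil_smul_right, hy, bil_comm A hA s₂ y]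
    field_simp
    ring
  have hu'' : bil A s₂ s₂ • y + (-(2 * bil A y s₂)) • s₂ = bil A s₂ s₂ • y'' := by
    rw [hy'', smul_add, smul_smul]
    congr 2
    field_simp
  obtain ⟨s₁, hs₁⟩ : ∃ s₁ : ι → K, s₁ = y'' + (-1 : K) • y' := ⟨_, rfl⟩
  have hq₁ : bil A s₁ s₁ = 2 * (c - bil A y'' y') := by
    rw [hs₁]
    simp only [bil_add_left, bil_add_right, bil_smul_left, bil_smul_right, hq'', hy', bil_comm A hA y' y'']
    ring
  have hB₁ : bil A y'' s₁ = c - bil A y'' y' := by
    rw [hs₁, bil_add_right, bil_smul_right, hq'']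
    ring
  have hn₁ : bil A s₁ s₁ ≠ 0 := by
    rw [hq₁]
    exact mul_ne_zero two_ne_zero (sub_ne_zero.2 (Ne.symm hs₂'))
  refine ⟨ι ⊕ ι, inferInstance, g, bil A t₁ t₁ * bil A t₂ t₂, Sum.elim y y,
    fun k => algebraMap K (AlgebraicClosure K) (Sum.elim s₁ s₂ k), ?_, ?_, ?_, ?_, ?_⟩
  · rw [(hval y y).1, hy]
    exact mul_ne_zero hc hc
  · intro i
    have h1 := congrFun (hval y y).2 i
    have h2 : aeval (Sum.elim y y) (g i) = c * (c * y i + -(2 * c) * y i) + -(2 * (c * c + -(2 * c) * c)) * y i := by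
      rw [h1]
      simp only [bil_add_left, bil_smul_left, hy, Pi.add_apply, Pi.smul_apply, smul_eq_mul]
    rw [h2, (hval y y).1, hy]
    ring
  · rw [show aeval (fun k => algebraMap K (AlgebraicClosure K) (Sum.elim s₁ s₂ k)) (bil A t₁ t₁ * bil A t₂ t₂) =
      algebraMap K (AlgebraicClosure K) (aeval (Sum.elim s₁ s₂) (bil A t₁ t₁ * bil A t₂ t₂)) from
      aeval_algebraMap_apply (AlgebraicClosure K) _ _, (hval s₁ s₂).1, Ne, map_eq_zero]
    exact mul_ne_zero hn₁ hs₂
  · intro i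
    have h1 := congrFun (hval s₁ s₂).2 i
    have h2 : aeval (Sum.elim s₁ s₂) (g i) = bil A s₁ s₁ * bil A s₂ s₂ * y' i := by
      rw [h1, hu'', bil_smul_left, hB₁, Pi.add_apply, Pi.smul_apply, Pi.smul_apply, Pi.smul_apply, smul_eq_mul,
        smul_eq_mul, smul_eq_mul, hq₁]
      have h3 : s₁ i = y'' i - y' i := by
        rw [hs₁, Pi.add_apply, Pi.smul_apply, smul_eq_mul]
        ring
      rw [h3]
      ring
    rw [show aeval (fun k => algebraMap K (AlgebraicClosure K) (Sum.elim s₁ s₂ k)) (g i) =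
      algebraMap K (AlgebraicClosure K) (aeval (Sum.elim s₁ s₂) (g i)) from
      aeval_algebraMap_apply (AlgebraicClosure K) _ _,
      show aeval (fun k => algebraMap K (AlgebraicClosure K) (Sum.elim s₁ s₂ k)) (bil A t₁ t₁ * bil A t₂ t₂) =
      algebraMap K (AlgebraicClosure K) (aeval (Sum.elim s₁ s₂) (bil A t₁ t₁ * bil A t₂ t₂)) from
      aeval_algebraMap_apply (AlgebraicClosure K) _ _, (hval s₁ s₂).1, ← map_mul, h2]
  · intro v hv
    obtain ⟨v₁, v₂, rfl⟩ : ∃ v₁ v₂, v = Sum.elim v₁ v₂ :=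
      ⟨fun i => v (Sum.inl i), fun i => v (Sum.inr i), by funext k; rcases k with k | k <;> rfl⟩
    show _ ⬝ᵥ (A.mulVec _) = c
    rw [← bil_eq]
    rw [(hval v₁ v₂).1] at hv ⊢
    have hg' : (fun i => aeval (Sum.elim v₁ v₂) (g i) / (bil A v₁ v₁ * bil A v₂ v₂)) =
        (bil A v₁ v₁ * bil A v₂ v₂)⁻¹ • (fun i => aeval (Sum.elim v₁ v₂) (g i)) := by
      funext i
      rw [Pi.smul_apply, smul_eq_mul, div_eq_inv_mul]
    rw [hg', (hval v₁ v₂).2, bil_smul_left, bil_smul_right]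
    obtain ⟨z, hz⟩ : ∃ z : ι → K, z = bil A v₂ v₂ • y + (-(2 * bil A y v₂)) • v₂ := ⟨_, rfl⟩
    have hzz : bil A z z = bil A v₂ v₂ ^ 2 * c := by
      rw [hz]
      simp only [bil_add_left, bil_add_right, bil_smul_left, bil_smul_right, hy, bil_comm A hA v₂ y]
      ring
    rw [← hz]
    simp only [bil_add_left, bil_add_right, bil_smul_left, bil_smul_right, hzz, bil_comm A hA v₁ z]
    have h1 := left_ne_zero_of_mul hv
    have h2 := right_ne_zero_of_mul hv
    field_simp
    ring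

end Pool.Agent.X32.NF
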