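import Pool.Agent.X32.NF.NormSet
import Pool.Agent.X32.NF.Quadric

/-!
Affine spaces, quadrics and norm equations; values of rational functions on products of linked sets.
-/

set_option autoImplicit false

namespace Pool.Agent.X32.NF

open MvPolynomial
open Pool.Agent.TH783.CE (Flat)

/-- A block: an affine space over `K`, or a quadric `yᵀ A y = c` in `Kⁿ`, `n ≥ 2`, `A` a symmetric
invertible matrix, `c ≠ 0`, or a set `N₁(z₁) ⋯ N_k(z_k) = c` in `D₁ × ⋯ × D_k = Kⁿ`, where the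
`D_j` are division algebras over `K` with norms `N_j` and `c ≠ 0`. -/
def Block {K : Type} [Field K] {n : ℕ} (S : Set (Fin n → K)) : Prop :=
  S = Set.univ ∨
  (2 ≤ n ∧ ∃ (A : Matrix (Fin n) (Fin n) K) (c : K), A.IsSymm ∧ A.det ≠ 0 ∧ c ≠ 0 ∧
    S = {y | y ⬝ᵥ (A.mulVec y) = c}) ∨
  ∃ (k : ℕ) (D : Fin k → Type) (_ : ∀ j, DivisionRing (D j)) (_ : ∀ j, Algebra K (D j))
    (N : ∀ j, D j → K) (φ : (Fin n → K) ≃ₗ[K] (∀ j, D j)) (c : K),
    (∀ j, IsNorm K (D j) (N j)) ∧ c ≠ 0 ∧ S = {y | ∏ j, N j (φ y j) = c}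

/-- The values of `p / q` at the points `x = (x₁, …, x_r)` with `x_j ∈ S_j` for all `j` and
`q(x) ≠ 0`. -/
def values {K : Type} [Field K] {r : ℕ} {n : Fin r → ℕ} (S : ∀ j, Set (Fin (n j) → K))
    (p q : MvPolynomial ((j : Fin r) × Fin (n j)) K) : Set K :=
  {t | ∃ x : (j : Fin r) × Fin (n j) → K, (∀ j, (fun i => x ⟨j, i⟩) ∈ S j) ∧
    eval x q ≠ 0 ∧ t = eval x p / eval x q}

/-- A finite union of sets of the two kinds. -/
def Union {K : Type} [Field K] {r l : ℕ} (n : Fin r → ℕ) (f : ∀ i, MvPolynomial (Fin (n i + 1)) K)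
    (s : Fin l → ℕ) (d : ∀ i, Fin (s i) → ℕ) (S : ∀ i, ∀ j, Set (Fin (d i j) → K))
    (p q : ∀ i, MvPolynomial ((j : Fin (s i)) × Fin (d i j)) K) : Set K :=
  {x | (∃ i, ∃ z : Fin (n i) → K, eval (Fin.cons x z : Fin (n i + 1) → K) (f i) = 0) ∨
    ∃ i, x ∈ values (S i) (p i) (q i)}

theorem block_linked {K : Type} [Field K] [CharZero K] {n : ℕ} {S : Set (Fin n → K)} (hS : Block S) :
    Linked S := by
  rcases hS with rfl | ⟨hn, A, c, hA, hdet, hc, rfl⟩ | ⟨k, D, _, _, N, φ, c, hN, hc, rfl⟩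
  · exact linked_univ
  · exact linked_quadric A hA hdet (by rw [Fintype.card_fin]; exact hn) c hc
  · exact linked_norm D N φ c hN hc

theorem values_sub {K : Type} [Field K] [CharZero K] {O : Set K} (hO : Flat O) {r : ℕ} {n : Fin r → ℕ}
    (S : ∀ j, Set (Fin (n j) → K)) (hS : ∀ j, Linked (S j))
    (p q : MvPolynomial ((j : Fin r) × Fin (n j)) K) (h : values S p q ⊆ O) : (values S p q).Subsingleton := by
  have h1 := linked_const hO (linked_pi S hS) p q
    (fun y hy hq => h ⟨y, hy, by simpa [aeval_eq_eval] using hq, by simp [aeval_eq_eval]⟩)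
  rintro t ⟨x, hx, hqx, rfl⟩ t' ⟨x', hx', hqx', rfl⟩
  have h2 := h1 x hx x' hx' (by simpa [aeval_eq_eval] using hqx)
  rw [div_eq_div_iff hqx hqx']
  have h3 : eval x' p * eval x q = eval x p * eval x' q := by
    simpa [aeval_eq_eval] using h2
  rw [← h3]

end Pool.Agent.X32.NF
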