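import Mathlib
import Pool.Agent.X32.NF.Linked

/-!
Norm equations are linked sets.
-/

set_option autoImplicit false

namespace Pool.Agent.X32.NF

open MvPolynomial Module

variable {K : Type} [Field K]

/-- `N` is a norm of the finite-dimensional division algebra `D` over `K`: it is multiplicative, and each
element of `D` lies in a finite extension `L` of `K` inside `D` on which `N` is the field norm of `L` over `K` -/
def IsNorm (K D : Type) [Field K] [DivisionRing D] [Algebra K D] (N : D → K) : Prop :=
  (∀ x y : D, N (x * y) = N x * N y) ∧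
  ∀ x : D, ∃ (L : Type) (_ : Field L) (_ : Algebra K L) (_ : FiniteDimensional K L) (f : L →ₐ[K] D),
    x ∈ Set.range f ∧ ∀ y : L, N (f y) = Algebra.norm K y

/-- coordinates of powers of the generic element are polynomials -/
theorem pow_poly {L : Type} [Field L] [Algebra K L] {κ : Type} [Fintype κ] (β : Basis κ K L) (T : ℕ) :
    ∃ M : κ → MvPolynomial κ K, ∀ v : κ → K, ∀ l, aeval v (M l) = β.repr ((∑ i, v i • β i) ^ T) l := by
  classical
  induction T with
  | zero => exact ⟨fun l => C (β.repr 1 l), fun v l => by simp⟩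
  | succ T ih =>
    obtain ⟨M, hM⟩ := ih
    refine ⟨fun l => ∑ i, ∑ i', M i * X i' * C (β.repr (β i * β i') l), fun v l => ?_⟩
    have h1 : (∑ i, v i • β i) ^ (T + 1) = ∑ i, ∑ i', (aeval v (M i) * v i') • (β i * β i') := by
      rw [pow_succ]
      have h2 : (∑ i, v i • β i) ^ T = ∑ i, (aeval v (M i) : K) • β i := by
        conv_lhs => rw [← β.sum_repr ((∑ i, v i • β i) ^ T)]
        apply Finset.sum_congr rfl
        intro i _
        rw [hM]
      rw [h2, Finset.sum_mul_sum]
      apply Finset.sum_congr rfl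
      intro i _
      apply Finset.sum_congr rfl
      intro i' _
      rw [smul_mul_smul_comm]
    rw [h1]
    simp only [map_sum, map_mul, aeval_X, aeval_C, map_smul, Finsupp.coe_finsetSum, Finset.sum_apply,
      Finsupp.smul_apply, smul_eq_mul, Algebra.algebraMap_self, RingHom.id_apply]

/-- the norm is a polynomial -/
theorem norm_poly {L : Type} [Field L] [Algebra K L] {κ : Type} [Fintype κ] (β : Basis κ K L) :
    ∃ P : MvPolynomial κ K, ∀ v : κ → K, aeval v P = Algebra.norm K (∑ i, v i • β i) := by
  classical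
  refine ⟨(∑ i, (X i : MvPolynomial κ K) • (Algebra.leftMulMatrix β (β i)).map (C : K →+* MvPolynomial κ K)).det, fun v => ?_⟩
  rw [AlgHom.map_det, Algebra.norm_eq_matrix_det β]
  congr 1
  ext a b
  simp [Matrix.sum_apply, Matrix.smul_apply]

/-- polynomials over the algebraic closure which agree at the rational points are equal -/
theorem eq_of_points [CharZero K] {κ : Type} [Finite κ] (Q₁ Q₂ : MvPolynomial κ (AlgebraicClosure K))
    (h : ∀ v : κ → K, eval (fun i => algebraMap K (AlgebraicClosure K) (v i)) Q₁ =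
      eval (fun i => algebraMap K (AlgebraicClosure K) (v i)) Q₂) : Q₁ = Q₂ := by
  apply MvPolynomial.funext_set (fun _ => Set.range (algebraMap K (AlgebraicClosure K)))
  · intro i
    apply Set.infinite_range_of_injective
    exact (algebraMap K (AlgebraicClosure K)).injective
  · intro x hx
    have hx' : ∀ i, ∃ a : K, algebraMap K (AlgebraicClosure K) a = x i := fun i => hx i (Set.mem_univ i)
    choose v hv using hx'
    have : x = fun i => algebraMap K (AlgebraicClosure K) (v i) := by
      funext i
      rw [hv]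
    rw [this]
    exact h v

/-- solving for the conjugates -/
theorem exists_conj [CharZero K] {L : Type} [Field L] [Algebra K L] [FiniteDimensional K L] {κ : Type} [Fintype κ]
    (β : Basis κ K L) :
    (∀ ρ : (L →ₐ[K] AlgebraicClosure K) → AlgebraicClosure K, ∃ w : κ → AlgebraicClosure K,
      ∀ σ, ∑ l, w l * σ (β l) = ρ σ) ∧
    (∀ a b : κ → AlgebraicClosure K, (∀ σ : L →ₐ[K] AlgebraicClosure K, ∑ l, a l * σ (β l) = ∑ l, b l * σ (β l)) →
      a = b) := by
  classical
  have hcard : Fintype.card κ = Fintype.card (L →ₐ[K] AlgebraicClosure K) := by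
    rw [AlgHom.card K L (AlgebraicClosure K), Module.finrank_eq_card_basis β]
  obtain ⟨e⟩ := Fintype.card_eq.1 hcard
  obtain ⟨A, hA⟩ : ∃ A, A = Algebra.embeddingsMatrixReindex K (AlgebraicClosure K) β e := ⟨_, rfl⟩
  have hdet : A.det ≠ 0 := by
    intro h0
    have h1 := Algebra.discr_eq_det_embeddingsMatrixReindex_pow_two K (AlgebraicClosure K) β e
    rw [← hA, h0] at h1
    have h2 := Algebra.discr_not_zero_of_basis K β
    apply h2
    apply (algebraMap K (AlgebraicClosure K)).injective
    rw [h1, map_zero]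
    simp
  have hunit : IsUnit A.det := isUnit_iff_ne_zero.2 hdet
  have hent : ∀ (a : κ → AlgebraicClosure K) (i : κ), Matrix.vecMul a A i = ∑ l, a l * (e i) (β l) := by
    intro a i
    rw [hA]
    rfl
  constructor
  · intro ρ
    refine ⟨Matrix.vecMul (fun i => ρ (e i)) A⁻¹, fun σ => ?_⟩
    have h1 := hent (Matrix.vecMul (fun i => ρ (e i)) A⁻¹) (e.symm σ)
    rw [e.apply_symm_apply] at h1
    rw [← h1, Matrix.vecMul_vecMul, Matrix.nonsing_inv_mul A hunit, Matrix.vecMul_one, e.apply_symm_apply]
  · intro a b hab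
    have h1 : Matrix.vecMul a A = Matrix.vecMul b A := by
      funext i
      rw [hent, hent, hab]
    have h2 := congrArg (fun x => Matrix.vecMul x A⁻¹) h1
    simpa only [Matrix.vecMul_vecMul, Matrix.mul_nonsing_inv A hunit, Matrix.vecMul_one] using h2

/-- values over the algebraic closure of the norm polynomial -/
theorem norm_conj [CharZero K] {L : Type} [Field L] [Algebra K L] [FiniteDimensional K L] {κ : Type} [Fintype κ]
    (β : Basis κ K L) (P : MvPolynomial κ K) (hP : ∀ v : κ → K, aeval v P = Algebra.norm K (∑ i, v i • β i))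
    (w : κ → AlgebraicClosure K) : aeval w P = ∏ σ : L →ₐ[K] AlgebraicClosure K, ∑ l, w l * σ (β l) := by
  classical
  have h1 : map (algebraMap K (AlgebraicClosure K)) P =
      ∏ σ : L →ₐ[K] AlgebraicClosure K, ∑ l, X l * C (σ (β l)) := by
    apply eq_of_points
    intro v
    rw [eval_map, ← aeval_def]
    have h2 : aeval (fun i => algebraMap K (AlgebraicClosure K) (v i)) P =
        algebraMap K (AlgebraicClosure K) (aeval v P) := aeval_algebraMap_apply (AlgebraicClosure K) v P
    rw [h2, hP, Algebra.norm_eq_prod_embeddings K (AlgebraicClosure K), map_prod]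
    apply Finset.prod_congr rfl
    intro σ _
    rw [map_sum, map_sum]
    apply Finset.sum_congr rfl
    intro i _
    rw [map_smul, map_mul, eval_X, eval_C, Algebra.smul_def]
  have h3 := congrArg (eval w) h1
  rw [eval_map, ← aeval_def, map_prod] at h3
  rw [h3]
  apply Finset.prod_congr rfl
  intro σ _
  rw [map_sum]
  apply Finset.sum_congr rfl
  intro i _
  rw [map_mul, eval_X, eval_C]

/-- values over the algebraic closure of the coordinate polynomials -/
theorem pow_conj [CharZero K] {L : Type} [Field L] [Algebra K L] [FiniteDimensional K L] {κ : Type} [Fintype κ]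
    (β : Basis κ K L) (T : ℕ) (M : κ → MvPolynomial κ K)
    (hM : ∀ v : κ → K, ∀ l, aeval v (M l) = β.repr ((∑ i, v i • β i) ^ T) l)
    (w : κ → AlgebraicClosure K) (σ : L →ₐ[K] AlgebraicClosure K) :
    ∑ l, aeval w (M l) * σ (β l) = (∑ l, w l * σ (β l)) ^ T := by
  classical
  have h1 : ∑ l, map (algebraMap K (AlgebraicClosure K)) (M l) * C (σ (β l)) =
      (∑ l, X l * C (σ (β l))) ^ T := by
    apply eq_of_points
    intro v
    rw [map_sum, map_pow, map_sum]
    have h2 : ∑ i, eval (fun i => algebraMap K (AlgebraicClosure K) (v i))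
        (map (algebraMap K (AlgebraicClosure K)) (M i) * C (σ (β i))) = σ ((∑ i, v i • β i) ^ T) := by
      conv_rhs => rw [← β.sum_repr ((∑ i, v i • β i) ^ T), map_sum]
      apply Finset.sum_congr rfl
      intro i _
      rw [map_mul, eval_C, eval_map, ← aeval_def, map_smul, Algebra.smul_def, ← hM]
      congr 1
      exact aeval_algebraMap_apply (AlgebraicClosure K) v (M i)
    rw [h2, map_pow, map_sum]
    congr 1
    apply Finset.sum_congr rfl
    intro i _
    rw [map_smul, map_mul, eval_X, eval_C, Algebra.smul_def]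
  have h3 := congrArg (eval w) h1
  rw [map_sum, map_pow, map_sum] at h3
  have h4 : ∀ i, eval w (map (algebraMap K (AlgebraicClosure K)) (M i) * C (σ (β i))) = aeval w (M i) * σ (β i) := by
    intro i
    rw [map_mul, eval_C, eval_map, ← aeval_def]
  have h5 : ∀ i, eval w ((X i : MvPolynomial κ (AlgebraicClosure K)) * C (σ (β i))) = w i * σ (β i) := by
    intro i
    rw [map_mul, eval_C, eval_X]
  simp only [h4, h5] at h3
  exact h3

/-- roots with product one -/
theorem exists_roots {F : Type} [Field F] [IsAlgClosed F] {α : Type} [Fintype α] [Nonempty α] (T : ℕ) (hT : 0 < T)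
    (t : α → F) (ht : ∏ a, t a = 1) : ∃ ρ : α → F, (∀ a, ρ a ^ T = t a) ∧ ∏ a, ρ a = 1 := by
  classical
  have h1 : ∀ a, ∃ z, z ^ T = t a := fun a => IsAlgClosed.exists_pow_nat_eq _ hT
  choose ρ hρ using h1
  obtain ⟨a₀⟩ := (inferInstance : Nonempty α)
  obtain ⟨ζ, hζ⟩ : ∃ ζ, ζ = ∏ a, ρ a := ⟨_, rfl⟩
  have hζT : ζ ^ T = 1 := by
    rw [hζ, ← Finset.prod_pow]
    simp only [hρ]
    exact ht
  have hζ0 : ζ ≠ 0 := by
    intro h0
    rw [h0, zero_pow hT.ne'] at hζT
    exact zero_ne_one hζT
  refine ⟨Function.update ρ a₀ (ρ a₀ * ζ⁻¹), fun a => ?_, ?_⟩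
  · by_cases h : a = a₀
    · rw [h, Function.update_self, mul_pow, inv_pow, hζT, inv_one, mul_one, hρ]
    · rw [Function.update_of_ne h, hρ]
  · rw [Finset.prod_update_of_mem (Finset.mem_univ a₀)]
    have h2 : ζ = ρ a₀ * ∏ x ∈ Finset.univ \ {a₀}, ρ x := by
      rw [hζ, ← Finset.mul_prod_erase Finset.univ ρ (Finset.mem_univ a₀), Finset.sdiff_singleton_eq_erase]
    rw [mul_right_comm, ← h2, mul_inv_cancel₀ hζ0]

end Pool.Agent.X32.NF
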