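import Mathlib
import Pool.Agent.X32.NF.Norm

/-!
Norm equations are linked sets.
-/

set_option autoImplicit false

namespace Pool.Agent.X32.NF

open MvPolynomial Module

variable {K : Type} [Field K]

/-- a point is joined to itself -/
theorem linked_self {ι : Type} {S : Set (ι → K)} (y : ι → K) (hy : y ∈ S) :
    ∃ (κ : Type) (_ : Finite κ) (g : ι → MvPolynomial κ K) (N : MvPolynomial κ K)
    (w : κ → K) (w' : κ → AlgebraicClosure K),
    aeval w N ≠ (0 : K) ∧ (∀ i, aeval w (g i) = aeval w N * y i) ∧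
    aeval w' N ≠ (0 : AlgebraicClosure K) ∧
    (∀ i, aeval w' (g i) = aeval w' N * algebraMap K (AlgebraicClosure K) (y i)) ∧
    ∀ v : κ → K, aeval v N ≠ (0 : K) → (fun i => aeval v (g i) / aeval v N) ∈ S := by
  refine ⟨Empty, inferInstance, fun i => C (y i), 1, fun e => e.elim, fun e => e.elim, ?_, ?_, ?_, ?_, ?_⟩
  · simp
  · intro i; simp
  · simp
  · intro i; simp
  · intro v _
    have : (fun i => aeval v (C (y i) : MvPolynomial Empty K) / aeval v (1 : MvPolynomial Empty K)) = y := by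
      funext i
      simp
    rw [this]
    exact hy

/-- **Norm equations are linked sets.** -/
theorem linked_norm [CharZero K] {ι : Type} {k : ℕ} (D : Fin k → Type) [∀ j, DivisionRing (D j)]
    [∀ j, Algebra K (D j)] (N : ∀ j, D j → K) (φ : (ι → K) ≃ₗ[K] (∀ j, D j)) (c : K)
    (hN : ∀ j, IsNorm K (D j) (N j)) (hc : c ≠ 0) :
    Linked {y : ι → K | ∏ j, N j (φ y j) = c} := by
  classical
  intro y hy y' hy'
  have hyS := hy
  replace hy : ∏ j, N j (φ y j) = c := hy
  replace hy' : ∏ j, N j (φ y' j) = c := hy'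
  rcases Nat.eq_zero_or_pos k with hk | hk
  · subst hk
    have h1 : y = y' := φ.injective (Subsingleton.elim _ _)
    rw [← h1]
    exact linked_self y hyS
  have hN0 : ∀ j, N j 0 = 0 := by
    intro j
    obtain ⟨L, _, _, _, f, ⟨x, hx⟩, hNf⟩ := (hN j).2 0
    have h1 : x = 0 := by
      apply f.toRingHom.injective
      show f x = f 0
      rw [hx, map_zero]
    rw [← hx, hNf, h1, Algebra.norm_zero]
  have hz0 : ∀ j, φ y j ≠ 0 := fun j h => by
    apply hc
    rw [← hy]
    exact Finset.prod_eq_zero (Finset.mem_univ j) (by rw [h, hN0])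
  choose L hL1 hL2 hL3 f hf hNf using fun j => (hN j).2 ((φ y j)⁻¹ * φ y' j)
  choose x hx using hf
  have hxN : ∏ j, Algebra.norm K (x j) = 1 := by
    have h1 : ∀ j, N j (φ y j) * Algebra.norm K (x j) = N j (φ y' j) := by
      intro j
      rw [← hNf, hx, ← (hN j).1, mul_inv_cancel_left₀ (hz0 j)]
    have h2 : (∏ j, N j (φ y j)) * ∏ j, Algebra.norm K (x j) = ∏ j, N j (φ y' j) := by
      rw [← Finset.prod_mul_distrib]
      exact Finset.prod_congr rfl fun j _ => h1 j
    rw [hy, hy'] at h2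
    exact mul_left_cancel₀ hc (by rw [h2, mul_one])
  obtain ⟨β, -⟩ : ∃ β : ∀ j, Basis (Fin (finrank K (L j))) K (L j), True := ⟨fun j => Module.finBasis K (L j), trivial⟩
  obtain ⟨T, hT⟩ : ∃ T, T = ∑ j, finrank K (L j) := ⟨_, rfl⟩
  have hTpos : 0 < T := by
    rw [hT]
    have h1 : finrank K (L ⟨0, hk⟩) ≤ ∑ j, finrank K (L j) :=
      Finset.single_le_sum (f := fun j => finrank K (L j)) (fun j _ => Nat.zero_le _) (Finset.mem_univ _)
    have h2 : 0 < finrank K (L ⟨0, hk⟩) := Module.finrank_pos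
    omega
  choose M hM using fun j => pow_poly (β j) T
  choose P hP using fun j => norm_poly (β j)
  -- linearity
  have hcoord : ∀ (m : ∀ j, Fin (finrank K (L j)) → K) (i : ι),
      φ.symm (fun j => φ y j * f j (∑ l, m j l • β j l)) i =
        ∑ j, ∑ l, φ.symm (Pi.single j (φ y j * f j (β j l))) i * m j l := by
    intro m i
    have h1 : (fun j => φ y j * f j (∑ l, m j l • β j l)) =
        ∑ j, ∑ l, m j l • (Pi.single j (φ y j * f j (β j l)) : ∀ j, D j) := by
      funext j₀
      rw [Finset.sum_apply, Finset.sum_eq_single j₀]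
      · rw [Finset.sum_apply, map_sum, Finset.mul_sum]
        apply Finset.sum_congr rfl
        intro l _
        rw [Pi.smul_apply, Pi.single_eq_same, map_smul, mul_smul_comm]
      · intro j _ hj
        rw [Finset.sum_apply]
        apply Finset.sum_eq_zero
        intro l _
        rw [Pi.smul_apply, Pi.single_eq_of_ne (Ne.symm hj), smul_zero]
      · intro h
        exact absurd (Finset.mem_univ _) h
    rw [h1, map_sum, Finset.sum_apply]
    apply Finset.sum_congr rfl
    intro j _
    rw [map_sum, Finset.sum_apply]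
    apply Finset.sum_congr rfl
    intro l _
    rw [map_smul, Pi.smul_apply, smul_eq_mul, mul_comm]
  have e1 : ∀ {F : Type} [Field F] [Algebra K F] (v : ((j : Fin k) × Fin (finrank K (L j))) → F) (j : Fin k)
      (Q : MvPolynomial (Fin (finrank K (L j))) K),
      aeval v (rename (fun i => (⟨j, i⟩ : (j : Fin k) × Fin (finrank K (L j)))) Q) = aeval (fun i => v ⟨j, i⟩) Q := by
    intro F _ _ v j Q
    rw [aeval_rename]
    rfl
  obtain ⟨g, hg⟩ : ∃ g : ι → MvPolynomial ((j : Fin k) × Fin (finrank K (L j))) K,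
      g = fun i => ∑ j, ∑ l, C (φ.symm (Pi.single j (φ y j * f j (β j l))) i) *
        rename (fun i => (⟨j, i⟩ : (j : Fin k) × Fin (finrank K (L j)))) (M j l) := ⟨_, rfl⟩
  obtain ⟨NN, hNN⟩ : ∃ NN : MvPolynomial ((j : Fin k) × Fin (finrank K (L j))) K,
      NN = ∏ j, rename (fun i => (⟨j, i⟩ : (j : Fin k) × Fin (finrank K (L j)))) (P j) := ⟨_, rfl⟩
  have hgK : ∀ (v : ((j : Fin k) × Fin (finrank K (L j))) → K) (i : ι),
      aeval v (g i) = φ.symm (fun j => φ y j * f j ((∑ l, v ⟨j, l⟩ • β j l) ^ T)) i := by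
    intro v i
    have h1 := hcoord (fun j l => (β j).repr ((∑ l, v ⟨j, l⟩ • β j l) ^ T) l) i
    have h2 : (fun j => φ y j * f j (∑ l, (β j).repr ((∑ l, v ⟨j, l⟩ • β j l) ^ T) l • β j l)) =
        fun j => φ y j * f j ((∑ l, v ⟨j, l⟩ • β j l) ^ T) := by
      funext j
      rw [(β j).sum_repr]
    rw [h2] at h1
    rw [h1, hg]
    simp only [map_sum, map_mul, aeval_C, e1, hM, Algebra.algebraMap_self, RingHom.id_apply]
  have hNK : ∀ (v : ((j : Fin k) × Fin (finrank K (L j))) → K),
      aeval v NN = ∏ j, Algebra.norm K (∑ l, v ⟨j, l⟩ • β j l) := by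
    intro v
    rw [hNN, map_prod]
    apply Finset.prod_congr rfl
    intro j _
    rw [e1, hP]
  -- the first point
  obtain ⟨w, hw⟩ : ∃ w : ((j : Fin k) × Fin (finrank K (L j))) → K, w = fun p => (β p.1).repr 1 p.2 := ⟨_, rfl⟩
  have hw1 : ∀ j, ∑ l, w ⟨j, l⟩ • β j l = 1 := by
    intro j
    rw [hw]
    exact (β j).sum_repr 1
  have hwN : aeval w NN = (1 : K) := by
    rw [hNK]
    simp only [hw1, map_one, Finset.prod_const_one]
  have hwg : ∀ i, aeval w (g i) = y i := by
    intro i
    rw [hgK]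
    simp only [hw1, one_pow, map_one, mul_one]
    exact congrFun (φ.symm_apply_apply y) i
  -- the second point
  have hne : Nonempty ((j : Fin k) × (L j →ₐ[K] AlgebraicClosure K)) :=
    ⟨⟨⟨0, hk⟩, IsAlgClosed.lift⟩⟩
  obtain ⟨ρ, hρ, hρ1⟩ := exists_roots (F := AlgebraicClosure K)
    (α := (j : Fin k) × (L j →ₐ[K] AlgebraicClosure K)) T hTpos (fun p => p.2 (x p.1)) (by
      rw [Fintype.prod_sigma]
      have h1 : ∀ j, ∏ σ : L j →ₐ[K] AlgebraicClosure K, σ (x j) =
          algebraMap K (AlgebraicClosure K) (Algebra.norm K (x j)) := fun j =>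
        (Algebra.norm_eq_prod_embeddings K (AlgebraicClosure K) (x j)).symm
      simp only [h1]
      rw [← map_prod, hxN, map_one])
  choose u hu using fun j => (exists_conj (β j)).1 (fun σ => ρ ⟨j, σ⟩)
  have huM : ∀ j l, aeval (u j) (M j l) = algebraMap K (AlgebraicClosure K) ((β j).repr (x j) l) := by
    intro j
    have h1 := (exists_conj (β j)).2 (fun l => aeval (u j) (M j l))
      (fun l => algebraMap K (AlgebraicClosure K) ((β j).repr (x j) l)) (by
        intro σ
        rw [pow_conj (β j) T (M j) (hM j), hu, hρ]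
        show σ (x j) = _
        conv_lhs => rw [← (β j).sum_repr (x j), map_sum]
        apply Finset.sum_congr rfl
        intro l _
        rw [map_smul, Algebra.smul_def])
    intro l
    exact congrFun h1 l
  have huP : ∏ j, aeval (u j) (P j) = (1 : AlgebraicClosure K) := by
    rw [← hρ1, Fintype.prod_sigma]
    apply Finset.prod_congr rfl
    intro j _
    rw [norm_conj (β j) (P j) (hP j)]
    apply Finset.prod_congr rfl
    intro σ _
    exact hu j σ
  obtain ⟨w', hw'⟩ : ∃ w' : ((j : Fin k) × Fin (finrank K (L j))) → AlgebraicClosure K, w' = fun p => u p.1 p.2 := ⟨_, rfl⟩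
  have hw'N : aeval w' NN = (1 : AlgebraicClosure K) := by
    rw [← huP, hNN, map_prod]
    apply Finset.prod_congr rfl
    intro j _
    rw [e1, hw']
  have hw'g : ∀ i, aeval w' (g i) = algebraMap K (AlgebraicClosure K) (y' i) := by
    intro i
    have h1 := hcoord (fun j l => (β j).repr (x j) l) i
    have h2 : (fun j => φ y j * f j (∑ l, (β j).repr (x j) l • β j l)) = φ y' := by
      funext j
      rw [(β j).sum_repr, hx, mul_inv_cancel_left₀ (hz0 j)]
    rw [h2, φ.symm_apply_apply] at h1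
    rw [h1, hg]
    simp only [map_sum, map_mul, aeval_C, e1]
    apply Finset.sum_congr rfl
    intro j _
    apply Finset.sum_congr rfl
    intro l _
    rw [← huM, hw']
  refine ⟨_, inferInstance, g, NN, w, w', ?_, ?_, ?_, ?_, ?_⟩
  · rw [hwN]
    exact one_ne_zero
  · intro i
    rw [hwN, one_mul, hwg]
  · rw [hw'N]
    exact one_ne_zero
  · intro i
    rw [hw'N, one_mul, hw'g]
  · intro v hv
    show ∏ j, N j (φ (fun i => aeval v (g i) / aeval v NN) j) = c
    obtain ⟨n, hn⟩ : ∃ n : K, n = aeval v NN := ⟨_, rfl⟩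
    rw [← hn] at hv ⊢
    have h1 : (fun i => aeval v (g i) / n) =
        n⁻¹ • φ.symm (fun j => φ y j * f j ((∑ l, v ⟨j, l⟩ • β j l) ^ T)) := by
      funext i
      rw [hgK, Pi.smul_apply, smul_eq_mul, div_eq_inv_mul]
    rw [h1, map_smul, φ.apply_symm_apply]
    have h2 : ∀ j, N j ((n⁻¹ • (fun j => φ y j * f j ((∑ l, v ⟨j, l⟩ • β j l) ^ T)) : ∀ j, D j) j) =
        N j (φ y j) * (n⁻¹ ^ finrank K (L j) * Algebra.norm K (∑ l, v ⟨j, l⟩ • β j l) ^ T) := by
      intro j
      rw [Pi.smul_apply, ← mul_smul_comm, ← map_smul, (hN j).1, hNf, Algebra.smul_def, map_mul, map_pow,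
        Algebra.norm_algebraMap]
    simp only [h2]
    rw [Finset.prod_mul_distrib, hy, Finset.prod_mul_distrib, Finset.prod_pow, Finset.prod_pow_eq_pow_sum, ← hNK,
      ← hn, ← hT, inv_pow, inv_mul_cancel₀ (pow_ne_zero _ hv), mul_one]

end Pool.Agent.X32.NF
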